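import Mathlib

/-!
MP_7e59b3_an.  Lower bound `c₁ ≥ 1/2` for the Hausdorff approximation of plane continua by
polynomial curves.  The test continuum is a union of combs: every tooth forces the first
coordinate of an approximating curve to have two extrema.
-/

namespace Pool.Agent.Results.MP_7e59b3_an.CombLowerBound

open Polynomial

/-- The plane curve `{(P(t), Q(t)) : t ∈ [0,1]}`. -/
def curve (P Q : ℝ[X]) : Set (ℝ × ℝ) := (fun t => (P.eval t, Q.eval t)) '' Set.Icc (0 : ℝ) 1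

/-! ### Counting zeros -/

/-- A polynomial with `N` sign changes along an increasing sequence has degree at least `N`. -/
theorem alt (Q : ℝ[X]) (N : ℕ) (y : ℕ → ℝ) (hy : ∀ l < N, y l < y (l + 1))
    (hs : ∀ l < N, Q.eval (y l) * Q.eval (y (l + 1)) < 0) (hQ : Q ≠ 0) : N ≤ Q.natDegree := by
  have hz : ∀ l : Fin N, ∃ z, y l < z ∧ z < y (l + 1) ∧ Q.eval z = 0 := by
    intro l
    have h1 := hy l l.2
    have h2 := hs l l.2
    have hc : ContinuousOn (fun t => Q.eval t) (Set.Icc (y l) (y (l + 1))) :=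
      Q.continuous.continuousOn
    rcases mul_neg_iff.mp h2 with ⟨ha, hb⟩ | ⟨ha, hb⟩
    · obtain ⟨z, hz, hz0⟩ := intermediate_value_Ioo' h1.le hc ⟨hb, ha⟩
      exact ⟨z, hz.1, hz.2, hz0⟩
    · obtain ⟨z, hz, hz0⟩ := intermediate_value_Ioo h1.le hc ⟨ha, hb⟩
      exact ⟨z, hz.1, hz.2, hz0⟩
  choose z h1 h2 h3 using hz
  have hymono : ∀ l m : ℕ, l ≤ m → m ≤ N → y l ≤ y m := by
    intro l m hlm hm
    induction m, hlm using Nat.le_induction with
    | base => exact le_rfl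
    | succ m _ ih => exact (ih (by omega)).trans (hy m (by omega)).le
  have hinj : Function.Injective z := by
    intro l m hlm
    rcases lt_trichotomy (l : ℕ) m with h | h | h
    · have := hymono (l + 1) m (by omega) (by have := m.2; omega)
      have a := h2 l
      have b := h1 m
      rw [hlm] at a
      linarith
    · exact Fin.ext h
    · have := hymono (m + 1) l (by omega) (by have := l.2; omega)
      have a := h2 m
      have b := h1 l
      rw [hlm] at b
      linarith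
  have hsub : Finset.univ.image z ⊆ Q.roots.toFinset := by
    intro x hx
    rw [Finset.mem_image] at hx
    obtain ⟨l, _, rfl⟩ := hx
    rw [Multiset.mem_toFinset, mem_roots hQ]
    exact h3 l
  calc N = (Finset.univ.image z).card := by
        rw [Finset.card_image_of_injective _ hinj, Finset.card_univ, Fintype.card_fin]
    _ ≤ Q.roots.toFinset.card := Finset.card_le_card hsub
    _ ≤ Q.roots.card := Multiset.toFinset_card_le _
    _ ≤ Q.natDegree := Q.card_roots'

/-- Times `t 0 < t 1 < … < t T` with a strictly lower value between any two consecutive ones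
force degree at least `2 T`. -/
theorem zigzag (P : ℝ[X]) (T : ℕ) (t s : ℕ → ℝ) (h1 : ∀ k < T, t k < s k) (h2 : ∀ k < T, s k < t (k + 1))
    (h3 : ∀ k < T, P.eval (s k) < P.eval (t k)) (h4 : ∀ k < T, P.eval (s k) < P.eval (t (k + 1)))
    (hT : 1 ≤ T) : 2 * T ≤ P.natDegree := by
  have mv : ∀ a b : ℝ, a < b → ∃ c, a < c ∧ c < b ∧
      P.derivative.eval c = (P.eval b - P.eval a) / (b - a) := by
    intro a b hab
    obtain ⟨c, hc, hc2⟩ := exists_hasDerivAt_eq_slope (fun x => P.eval x)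
      (fun x => P.derivative.eval x) hab P.continuous.continuousOn
      (fun x _ => P.hasDerivAt x)
    exact ⟨c, hc.1, hc.2, hc2⟩
  have hA : ∀ k : ℕ, ∃ c, k < T → t k < c ∧ c < s k ∧ P.derivative.eval c < 0 := by
    intro k
    by_cases hk : k < T
    · obtain ⟨c, c1, c2, c3⟩ := mv (t k) (s k) (h1 k hk)
      refine ⟨c, fun _ => ⟨c1, c2, ?_⟩⟩
      rw [c3]
      exact div_neg_of_neg_of_pos (by linarith [h3 k hk]) (by linarith [h1 k hk])
    · exact ⟨0, fun h => absurd h hk⟩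
  have hB : ∀ k : ℕ, ∃ c, k < T → s k < c ∧ c < t (k + 1) ∧ 0 < P.derivative.eval c := by
    intro k
    by_cases hk : k < T
    · obtain ⟨c, c1, c2, c3⟩ := mv (s k) (t (k + 1)) (h2 k hk)
      refine ⟨c, fun _ => ⟨c1, c2, ?_⟩⟩
      rw [c3]
      exact div_pos (by linarith [h4 k hk]) (by linarith [h2 k hk])
    · exact ⟨0, fun h => absurd h hk⟩
  choose A hA using hA
  choose B hB using hB
  let y : ℕ → ℝ := fun l => if l % 2 = 0 then A (l / 2) else B (l / 2)
  have y0 : ∀ k, y (2 * k) = A k := by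
    intro k
    have e1 : 2 * k % 2 = 0 := by omega
    have e2 : 2 * k / 2 = k := by omega
    simp only [y, e1, e2, if_true]
  have y1 : ∀ k, y (2 * k + 1) = B k := by
    intro k
    have e1 : (2 * k + 1) % 2 = 1 := by omega
    have e2 : (2 * k + 1) / 2 = k := by omega
    simp only [y, e1, e2]
    norm_num
  have hder : P.derivative ≠ 0 := by
    intro h
    have := (hA 0 (by omega)).2.2
    rw [h, eval_zero] at this
    exact lt_irrefl _ this
  have key := alt P.derivative (2 * T - 1) y ?_ ?_ hder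
  · have hne0 : P.natDegree ≠ 0 := by
      intro h0
      apply hder
      rw [eq_C_of_natDegree_eq_zero h0]
      simp
    have := Polynomial.natDegree_derivative_lt hne0
    omega
  · intro l hl
    rcases Nat.even_or_odd' l with ⟨k, rfl | rfl⟩
    · rw [y0, y1]
      exact (hA k (by omega)).2.1.trans (hB k (by omega)).1
    · have e : 2 * k + 1 + 1 = 2 * (k + 1) := by ring
      rw [e, y0, y1]
      exact (hB k (by omega)).2.1.trans (hA (k + 1) (by omega)).1
  · intro l hl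
    rcases Nat.even_or_odd' l with ⟨k, rfl | rfl⟩
    · rw [y0, y1]
      exact mul_neg_of_neg_of_pos (hA k (by omega)).2.2 (hB k (by omega)).2.2
    · have e : 2 * k + 1 + 1 = 2 * (k + 1) := by ring
      rw [e, y0, y1]
      exact mul_neg_of_pos_of_neg (hB k (by omega)).2.2 (hA (k + 1) (by omega)).2.2

/-! ### The continuum -/

/-- The set `(bottom side) ∪ (spine i) ∪ (tooth (i,j))`. -/
def piece (a b h : ℝ) (i j : ℕ) : Set (ℝ × ℝ) :=
  (Set.Icc a b ×ˢ {a}) ∪ (({a + 2 * i * h} ×ˢ Set.Icc a b) ∪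
    (Set.Icc (a + 2 * i * h) (a + 2 * i * h + h) ×ˢ {a + j * h}))

/-- The union of the combs. -/
def combs (a b h : ℝ) (K M : ℕ) : Set (ℝ × ℝ) :=
  ⋃ i ∈ Finset.range K, ⋃ j ∈ Finset.Icc 1 M, piece a b h i j

theorem mem_combs {a b h : ℝ} {K M : ℕ} {z : ℝ × ℝ} (hz : z ∈ combs a b h K M) :
    z.2 = a ∨ (∃ i : ℕ, z.1 = a + 2 * i * h) ∨
      (∃ i j : ℕ, a + 2 * i * h ≤ z.1 ∧ z.1 ≤ a + 2 * i * h + h ∧ z.2 = a + j * h) := by
  unfold combs at hz
  simp only [Set.mem_iUnion] at hz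
  obtain ⟨i, _, j, _, hz⟩ := hz
  rcases hz with hz | hz | hz
  · left; exact hz.2
  · right; left; exact ⟨i, hz.1⟩
  · right; right; exact ⟨i, j, hz.1.1, hz.1.2, hz.2⟩

theorem tip_mem {a b h : ℝ} {K M i j : ℕ} (hi : i < K) (hj1 : 1 ≤ j) (hj2 : j ≤ M) (hh : 0 ≤ h) :
    (a + 2 * i * h + h, a + j * h) ∈ combs a b h K M := by
  unfold combs
  simp only [Set.mem_iUnion]
  refine ⟨i, Finset.mem_range.mpr hi, j, Finset.mem_Icc.mpr ⟨hj1, hj2⟩, ?_⟩
  right; right
  exact ⟨⟨by simp; linarith, le_rfl⟩, rfl⟩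

theorem nat_close {i i' : ℕ} {h c : ℝ} (hh : 0 < h) (hc : 0 < c)
    (h1 : c * i * h < c * i' * h + c * h) (h2 : c * i' * h < c * i * h + c * h) : i = i' := by
  rcases lt_trichotomy i i' with hlt | heq | hlt
  · have h3 : (i : ℝ) + 1 ≤ i' := by exact_mod_cast hlt
    have h4 : c * ((i : ℝ) + 1) * h ≤ c * i' * h := by gcongr
    nlinarith
  · exact heq
  · have h3 : (i' : ℝ) + 1 ≤ i := by exact_mod_cast hlt
    have h4 : c * ((i' : ℝ) + 1) * h ≤ c * i * h := by gcongr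
    nlinarith

/-- A curve near the combs must leave a tooth through the spine. -/
theorem exit {a b h : ℝ} {K M : ℕ} (hh : 0 < h) {p q : ℝ → ℝ} (hp : Continuous p)
    (hq : Continuous q)
    (near : ∀ s ∈ Set.Icc (0 : ℝ) 1, ∃ z ∈ combs a b h K M, |p s - z.1| < h / 2 ∧
      |q s - z.2| < h / 2)
    {i j i' j' : ℕ} {t t' : ℝ} (ht : t ∈ Set.Icc (0 : ℝ) 1) (ht' : t' ∈ Set.Icc (0 : ℝ) 1)
    (h1 : |p t - (a + 2 * i * h + h)| < h / 2) (h2 : |q t - (a + j * h)| < h / 2)
    (h3 : |p t' - (a + 2 * i' * h + h)| < h / 2) (h4 : |q t' - (a + j' * h)| < h / 2)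
    (hj : 1 ≤ j) (hne : ¬ (i = i' ∧ j = j')) :
    ∃ s ∈ Set.uIcc t t', p s ≤ a + 2 * i * h + h / 2 := by
  by_contra hcon
  push Not at hcon
  let U : Set ℝ := {s | p s < a + 2 * i * h + 3 * h / 2 ∧ |q s - (a + j * h)| < h / 2}
  let C : Set ℝ := {s | p s ≤ a + 2 * i * h + 3 * h / 2 ∧ |q s - (a + j * h)| ≤ h / 2}
  have hU : IsOpen U := (isOpen_lt hp continuous_const).inter
    (isOpen_lt (hq.sub continuous_const).abs continuous_const)
  have hC : IsClosed C := (isClosed_le hp continuous_const).inter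
    (isClosed_le (hq.sub continuous_const).abs continuous_const)
  have hUC : closure U ⊆ C := closure_minimal (fun s hs => ⟨hs.1.le, hs.2.le⟩) hC
  have hmem : t ∈ U := by
    rw [abs_lt] at h1
    exact ⟨by linarith [h1.2], h2⟩
  have hsub : Set.uIcc t t' ⊆ U := by
    refine (isPreconnected_uIcc).subset_of_closure_inter_subset hU
      ⟨t, Set.left_mem_uIcc, hmem⟩ ?_
    rintro s ⟨hs1, hs2⟩
    obtain ⟨hc1, hc2⟩ := hUC hs1
    have hs01 : s ∈ Set.Icc (0 : ℝ) 1 := by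
      have := Set.uIcc_subset_Icc ht ht'
      exact this hs2
    have hgt := hcon s hs2
    obtain ⟨z, hz, z1, z2⟩ := near s hs01
    rw [abs_lt] at z1 z2
    rw [abs_le] at hc2
    rcases mem_combs hz with hb | ⟨i2, hb⟩ | ⟨i2, j2, hb1, hb2, hb3⟩
    · exfalso
      rw [hb] at z2
      have hj' : (1 : ℝ) ≤ j := by exact_mod_cast hj
      have : 1 * h ≤ (j : ℝ) * h := mul_le_mul_of_nonneg_right hj' hh.le
      linarith [z2.1, z2.2, hc2.1, hc2.2]
    · exfalso
      rw [hb] at z1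
      rcases le_or_gt i2 i with hle | hlt
      · have h5 : (i2 : ℝ) ≤ i := by exact_mod_cast hle
        have h6 : 2 * (i2 : ℝ) * h ≤ 2 * i * h := by gcongr
        linarith [z1.1, z1.2]
      · have h5 : (i : ℝ) + 1 ≤ i2 := by exact_mod_cast hlt
        have h6 : 2 * ((i : ℝ) + 1) * h ≤ 2 * i2 * h := by gcongr
        nlinarith [z1.1, z1.2]
    · have hi2 : i2 = i := by
        apply nat_close hh (c := 2) (by norm_num)
        · nlinarith [z1.1, z1.2]
        · nlinarith [z1.1, z1.2]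
      subst hi2
      have hj2 : j2 = j := by
        apply nat_close hh (c := 1) (by norm_num)
        · nlinarith [z2.1, z2.2, hc2.1, hc2.2]
        · nlinarith [z2.1, z2.2, hc2.1, hc2.2]
      subst hj2
      refine ⟨by linarith [z1.2], ?_⟩
      rw [abs_lt]
      constructor <;> linarith [z2.1, z2.2]
  have hU' := hsub Set.right_mem_uIcc
  have hgt := hcon t' Set.right_mem_uIcc
  obtain ⟨u1, u2⟩ := hU'
  rw [abs_lt] at h3 h4 u2
  apply hne
  constructor
  · apply nat_close hh (c := 2) (by norm_num)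
    · nlinarith [h3.1, h3.2]
    · nlinarith [h3.1, h3.2]
  · apply nat_close hh (c := 1) (by norm_num)
    · nlinarith [h4.1, h4.2, u2.1, u2.2]
    · nlinarith [h4.1, h4.2, u2.1, u2.2]

theorem combs_subset {a b h : ℝ} {K M : ℕ} (hab : a ≤ b) (hh : 0 ≤ h) (hM : M + 1 = 2 * K)
    (hMh : M * h = b - a) : combs a b h K M ⊆ Set.Icc a b ×ˢ Set.Icc a b := by
  intro z hz
  unfold combs at hz
  simp only [Set.mem_iUnion] at hz
  obtain ⟨i, hi, j, hj, hz⟩ := hz
  rw [Finset.mem_range] at hi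
  rw [Finset.mem_Icc] at hj
  have hi' : (2 * (i : ℝ) + 1) ≤ M := by exact_mod_cast (by omega : 2 * i + 1 ≤ M)
  have hj' : (j : ℝ) ≤ M := by exact_mod_cast hj.2
  have e1 : 2 * (i : ℝ) * h + h ≤ b - a := by rw [← hMh]; nlinarith
  have e2 : (j : ℝ) * h ≤ b - a := by rw [← hMh]; nlinarith
  have e3 : 0 ≤ 2 * (i : ℝ) * h := by positivity
  have e4 : 0 ≤ (j : ℝ) * h := by positivity
  rcases hz with hz | hz | hz
  · obtain ⟨⟨z1, z2⟩, z3⟩ := hz
    simp only [Set.mem_singleton_iff] at z3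
    exact ⟨⟨z1, z2⟩, by rw [z3]; exact ⟨le_rfl, hab⟩⟩
  · obtain ⟨z3, ⟨z1, z2⟩⟩ := hz
    simp only [Set.mem_singleton_iff] at z3
    exact ⟨by rw [z3]; constructor <;> linarith, ⟨z1, z2⟩⟩
  · obtain ⟨⟨z1, z2⟩, z3⟩ := hz
    simp only [Set.mem_singleton_iff] at z3
    exact ⟨⟨by linarith, by linarith⟩, by rw [z3]; constructor <;> linarith⟩

theorem combs_compact (a b h : ℝ) (K M : ℕ) : IsCompact (combs a b h K M) := by
  unfold combs piece
  refine (Finset.range K).isCompact_biUnion fun i _ =>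
    (Finset.Icc 1 M).isCompact_biUnion fun j _ => ?_
  exact (isCompact_Icc.prod isCompact_singleton).union
    ((isCompact_singleton.prod isCompact_Icc).union (isCompact_Icc.prod isCompact_singleton))

theorem combs_connected {a b h : ℝ} {K M : ℕ} (hab : a ≤ b) (hh : 0 ≤ h) (hK : 1 ≤ K)
    (hM : M + 1 = 2 * K) (hMh : M * h = b - a) : IsConnected (combs a b h K M) := by
  refine ⟨⟨_, tip_mem (i := 0) (j := 1) (by omega) le_rfl (by omega) hh⟩, ?_⟩
  apply isPreconnected_of_forall (a, a)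
  intro y hy
  unfold combs at hy
  simp only [Set.mem_iUnion] at hy
  obtain ⟨i, hi, j, hj, hy⟩ := hy
  have hi0 := hi
  have hj0 := hj
  rw [Finset.mem_range] at hi
  rw [Finset.mem_Icc] at hj
  have hi' : (2 * (i : ℝ) + 1) ≤ M := by exact_mod_cast (by omega : 2 * i + 1 ≤ M)
  have hj' : (j : ℝ) ≤ M := by exact_mod_cast hj.2
  have e1 : 2 * (i : ℝ) * h + h ≤ b - a := by rw [← hMh]; nlinarith
  have e2 : (j : ℝ) * h ≤ b - a := by rw [← hMh]; nlinarith
  have e3 : 0 ≤ 2 * (i : ℝ) * h := by positivity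
  have e4 : 0 ≤ (j : ℝ) * h := by positivity
  refine ⟨piece a b h i j, ?_, ?_, hy, ?_⟩
  · intro z hz
    unfold combs
    simp only [Set.mem_iUnion]
    exact ⟨i, hi0, j, hj0, hz⟩
  · left
    exact ⟨⟨le_rfl, hab⟩, rfl⟩
  · unfold piece
    apply IsPreconnected.union (a + 2 * (i : ℝ) * h, a)
    · exact ⟨⟨by simp only; linarith, by simp only; linarith⟩, rfl⟩
    · left
      exact ⟨rfl, ⟨le_rfl, hab⟩⟩
    · exact isPreconnected_Icc.prod isPreconnected_singleton
    · apply IsPreconnected.union (a + 2 * (i : ℝ) * h, a + j * h)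
      · exact ⟨rfl, ⟨by simp only; linarith, by simp only; linarith⟩⟩
      · exact ⟨⟨le_rfl, by simp only; linarith⟩, rfl⟩
      · exact isPreconnected_singleton.prod isPreconnected_Icc
      · exact isPreconnected_Icc.prod isPreconnected_singleton

/-- A curve closer than `h/2` to the combs has a first coordinate of degree `≥ 2 (K M - 1)`. -/
theorem tips_degree {a b h : ℝ} {K M : ℕ} (hh : 0 < h) (P Q : ℝ[X])
    (near : ∀ s ∈ Set.Icc (0 : ℝ) 1, ∃ z ∈ combs a b h K M, |P.eval s - z.1| < h / 2 ∧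
      |Q.eval s - z.2| < h / 2)
    (far : ∀ z ∈ combs a b h K M, ∃ s ∈ Set.Icc (0 : ℝ) 1, |P.eval s - z.1| < h / 2 ∧
      |Q.eval s - z.2| < h / 2) : 2 * (K * M - 1) ≤ P.natDegree := by
  have tip : ∀ x : Fin K × Fin M, ∃ s ∈ Set.Icc (0 : ℝ) 1,
      |P.eval s - (a + 2 * ((x.1 : ℕ) : ℝ) * h + h)| < h / 2 ∧
      |Q.eval s - (a + (((x.2 : ℕ) + 1 : ℕ) : ℝ) * h)| < h / 2 := by
    intro x
    exact far _ (tip_mem x.1.2 (by omega) (by have := x.2.2; omega) hh.le)
  choose τ hτ1 hτ2 hτ3 using tip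
  have pair' : ∀ x y : Fin K × Fin M, x ≠ y → (x.1 : ℕ) ≤ y.1 → ∃ s ∈ Set.uIcc (τ x) (τ y),
      P.eval s < P.eval (τ x) ∧ P.eval s < P.eval (τ y) := by
    intro x y hxy hle
    obtain ⟨s, hs, hs2⟩ := exit (p := fun t => P.eval t) (q := fun t => Q.eval t)
      (i' := y.1) (j' := (y.2 : ℕ) + 1) hh P.continuous Q.continuous near
      (hτ1 x) (hτ1 y) (hτ2 x) (hτ3 x) (hτ2 y) (hτ3 y) (by omega) (by
        rintro ⟨h1, h2⟩
        exact hxy (Prod.ext (Fin.ext h1) (Fin.ext (by omega))))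
    have h3 : ((x.1 : ℕ) : ℝ) ≤ (y.1 : ℕ) := by exact_mod_cast hle
    have h4 : 2 * ((x.1 : ℕ) : ℝ) * h ≤ 2 * ((y.1 : ℕ) : ℝ) * h := by gcongr
    have h5 := abs_lt.mp (hτ2 x)
    have h6 := abs_lt.mp (hτ2 y)
    exact ⟨s, hs, by linarith [h5.1], by linarith [h6.1]⟩
  have pair : ∀ x y : Fin K × Fin M, x ≠ y → ∃ s ∈ Set.uIcc (τ x) (τ y),
      P.eval s < P.eval (τ x) ∧ P.eval s < P.eval (τ y) := by
    intro x y hxy
    rcases le_total (x.1 : ℕ) y.1 with hle | hle
    · exact pair' x y hxy hle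
    · obtain ⟨s, hs, h1, h2⟩ := pair' y x hxy.symm hle
      exact ⟨s, by rwa [Set.uIcc_comm], h2, h1⟩
  have hinj : Function.Injective τ := by
    intro x y hxy
    by_contra hne
    obtain ⟨s, hs, h1, _⟩ := pair x y hne
    rw [← hxy, Set.uIcc_self, Set.mem_singleton_iff] at hs
    rw [hs] at h1
    exact lt_irrefl _ h1
  have hcard : (Finset.univ.image τ).card = K * M := by
    rw [Finset.card_image_of_injective _ hinj, Finset.card_univ, Fintype.card_prod,
      Fintype.card_fin, Fintype.card_fin]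
  let e := (Finset.univ.image τ).orderEmbOfFin hcard
  have he : ∀ k, ∃ x, τ x = e k := by
    intro k
    have := Finset.orderEmbOfFin_mem (Finset.univ.image τ) hcard k
    rw [Finset.mem_image] at this
    obtain ⟨x, _, hx⟩ := this
    exact ⟨x, hx⟩
  rcases Nat.lt_or_ge (K * M) 2 with hlt | hge
  · have : K * M - 1 = 0 := by omega
    rw [this]
    exact Nat.zero_le _
  let t : ℕ → ℝ := fun k => if hk : k < K * M then e ⟨k, hk⟩ else 0
  have gap : ∀ k, ∃ s, k < K * M - 1 → t k < s ∧ s < t (k + 1) ∧ P.eval s < P.eval (t k) ∧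
      P.eval s < P.eval (t (k + 1)) := by
    intro k
    by_cases hk : k < K * M - 1
    · have hk1 : k < K * M := by omega
      have hk2 : k + 1 < K * M := by omega
      have e1 : t k = e ⟨k, hk1⟩ := by simp only [t, hk1, dite_true]
      have e2 : t (k + 1) = e ⟨k + 1, hk2⟩ := by simp only [t, hk2, dite_true]
      have hlt : t k < t (k + 1) := by
        rw [e1, e2]
        exact e.strictMono (by rw [Fin.lt_def]; exact Nat.lt_succ_self k)
      obtain ⟨x, hx⟩ := he ⟨k, hk1⟩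
      obtain ⟨y, hy⟩ := he ⟨k + 1, hk2⟩
      rw [← hx] at e1
      rw [← hy] at e2
      have hxy : x ≠ y := by
        intro hxy
        rw [e1, e2, hxy] at hlt
        exact lt_irrefl _ hlt
      obtain ⟨s, hs, h1, h2⟩ := pair x y hxy
      rw [← e1] at h1 hs
      rw [← e2] at h2 hs
      rw [Set.uIcc_of_le hlt.le] at hs
      refine ⟨s, fun _ => ⟨lt_of_le_of_ne hs.1 ?_, lt_of_le_of_ne hs.2 ?_, h1, h2⟩⟩
      · intro heq
        rw [heq] at h1
        exact lt_irrefl _ h1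
      · intro heq
        rw [← heq] at h2
        exact lt_irrefl _ h2
    · exact ⟨0, fun h => absurd h hk⟩
  choose s hs using gap
  exact zigzag P (K * M - 1) t s (fun k hk => (hs k hk).1) (fun k hk => (hs k hk).2.1)
    (fun k hk => (hs k hk).2.2.1) (fun k hk => (hs k hk).2.2.2) (by omega)

/-! ### The quantities of the problem -/

/-- `Z_D`: the nonempty compact connected subsets of the square `[a,b]²`. -/
def ZD (a b : ℝ) : Set (Set (ℝ × ℝ)) :=
  {F | F ⊆ Set.Icc a b ×ˢ Set.Icc a b ∧ IsCompact F ∧ IsConnected F}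

/-- `E(H_n²; F)`: the infimum of the Hausdorff distances from `F` to the curves `(P(t), Q(t))`,
`t ∈ [0,1]`, with `P, Q` of degree at most `n` (the distance on `ℝ × ℝ` is the max-metric). -/
noncomputable def EF (n : ℕ) (F : Set (ℝ × ℝ)) : ENNReal :=
  ⨅ (P : ℝ[X]) (Q : ℝ[X]) (_ : P.natDegree ≤ n) (_ : Q.natDegree ≤ n),
    Metric.hausdorffEDist F (curve P Q)

/-- `E(H_n²; Z_D)`. -/
noncomputable def EZ (a b : ℝ) (n : ℕ) : ENNReal := ⨆ F ∈ ZD a b, EF n F

/-- The constant `c₁ = limsup √n · E(H_n²; Z_D)/(b-a)`. -/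
noncomputable def c1 (a b : ℝ) : ENNReal :=
  Filter.limsup (fun n : ℕ => ENNReal.ofReal (√(n : ℝ) / (b - a)) * EZ a b n) Filter.atTop

theorem far_of_edist {F G : Set (ℝ × ℝ)} {r : ℝ}
    (hd : Metric.hausdorffEDist F G < ENNReal.ofReal r) {z : ℝ × ℝ} (hz : z ∈ F) :
    ∃ w ∈ G, |w.1 - z.1| < r ∧ |w.2 - z.2| < r := by
  obtain ⟨w, hw, hw2⟩ := Metric.exists_edist_lt_of_hausdorffEDist_lt hz hd
  rw [edist_lt_ofReal, Prod.dist_eq, max_lt_iff, Real.dist_eq, Real.dist_eq] at hw2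
  exact ⟨w, hw, by rw [abs_sub_comm]; exact hw2.1, by rw [abs_sub_comm]; exact hw2.2⟩

theorem bound {a b h : ℝ} {K M n : ℕ} (hh : 0 < h) (hn : n < 2 * (K * M - 1)) (P Q : ℝ[X])
    (hP : P.natDegree ≤ n) :
    ENNReal.ofReal (h / 2) ≤ Metric.hausdorffEDist (combs a b h K M) (curve P Q) := by
  by_contra hcon
  rw [not_le] at hcon
  have h1 := tips_degree (a := a) (b := b) (K := K) (M := M) hh P Q ?_ ?_
  · omega
  · intro s hs
    have hd := hcon
    rw [Metric.hausdorffEDist_comm] at hd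
    obtain ⟨w, hw, hw1, hw2⟩ := far_of_edist (z := (P.eval s, Q.eval s)) hd ⟨s, hs, rfl⟩
    exact ⟨w, hw, by rw [abs_sub_comm]; exact hw1, by rw [abs_sub_comm]; exact hw2⟩
  · intro z hz
    obtain ⟨w, ⟨s, hs, hws⟩, hw1, hw2⟩ := far_of_edist hcon hz
    subst hws
    exact ⟨s, hs, hw1, hw2⟩

theorem exists_bad {a b : ℝ} (hab : a < b) (n : ℕ) : ∃ F ∈ ZD a b, ∀ P Q : ℝ[X],
    P.natDegree ≤ n →
      ENNReal.ofReal ((b - a) / (2 * √(n : ℝ) + 7)) ≤ Metric.hausdorffEDist F (curve P Q) := by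
  have hx0 : (0 : ℝ) ≤ √((n : ℝ) + 2) := Real.sqrt_nonneg _
  have hx1 : √((n : ℝ) + 2) * √((n : ℝ) + 2) = (n : ℝ) + 2 :=
    Real.mul_self_sqrt (by positivity)
  have hy0 : (0 : ℝ) ≤ √(n : ℝ) := Real.sqrt_nonneg _
  have hy1 : √(n : ℝ) * √(n : ℝ) = (n : ℝ) := Real.mul_self_sqrt (by positivity)
  have hxy : √((n : ℝ) + 2) ≤ √(n : ℝ) + 3 / 2 := by nlinarith
  obtain ⟨K, hKdef⟩ : ∃ K, K = ⌈(√((n : ℝ) + 2) + 1) / 2⌉₊ := ⟨_, rfl⟩
  have hK1 : (√((n : ℝ) + 2) + 1) / 2 ≤ K := by rw [hKdef]; exact Nat.le_ceil _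
  have hK2 : (K : ℝ) < (√((n : ℝ) + 2) + 1) / 2 + 1 := by
    rw [hKdef]; exact Nat.ceil_lt_add_one (by positivity)
  have hK : 1 ≤ K := by
    by_contra hK
    have : K = 0 := by omega
    rw [this] at hK1
    push_cast at hK1
    linarith
  obtain ⟨M, hM⟩ : ∃ M, M + 1 = 2 * K := ⟨2 * K - 1, by omega⟩
  have hMr : (M : ℝ) + 1 = 2 * K := by exact_mod_cast hM
  have hM1 : √((n : ℝ) + 2) ≤ M := by linarith
  have hM2 : (M : ℝ) < √((n : ℝ) + 2) + 2 := by linarith
  have hM0 : 1 ≤ M := by omega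
  have hM0r : (1 : ℝ) ≤ M := by exact_mod_cast hM0
  have hh : 0 < (b - a) / M := div_pos (by linarith) (by linarith)
  have hMh : M * ((b - a) / M) = b - a := by field_simp
  have hn : n < 2 * (K * M - 1) := by
    have h1 : (n : ℝ) + 2 < 2 * (K * M) := by
      have : 2 * ((K : ℝ) * M) = (M + 1) * M := by rw [hMr]; ring
      rw [this]
      nlinarith
    have h2 : n + 2 < 2 * (K * M) := by exact_mod_cast h1
    omega
  refine ⟨combs a b ((b - a) / M) K M, ⟨combs_subset hab.le hh.le hM hMh, combs_compact _ _ _ _ _,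
    combs_connected hab.le hh.le hK hM hMh⟩, ?_⟩
  intro P Q hP
  refine le_trans (ENNReal.ofReal_le_ofReal ?_) (bound hh hn P Q hP)
  rw [div_div]
  apply div_le_div_of_nonneg_left (by linarith) (by positivity)
  linarith

theorem tendsto_aux :
    Filter.Tendsto (fun n : ℕ => √(n : ℝ) / (2 * √(n : ℝ) + 7)) Filter.atTop (nhds (1 / 2)) := by
  have h1 : Filter.Tendsto (fun n : ℕ => √(n : ℝ)) Filter.atTop Filter.atTop :=
    Real.tendsto_sqrt_atTop.comp tendsto_natCast_atTop_atTop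
  have h2 : Filter.Tendsto (fun n : ℕ => 2 * √(n : ℝ) + 7) Filter.atTop Filter.atTop :=
    Filter.tendsto_atTop_add_const_right _ _ (h1.const_mul_atTop (by norm_num))
  have h3 : Filter.Tendsto (fun n : ℕ => (7 / 2 : ℝ) / (2 * √(n : ℝ) + 7)) Filter.atTop (nhds 0) :=
    h2.const_div_atTop _
  have h4 : Filter.Tendsto (fun n : ℕ => 1 / 2 - (7 / 2 : ℝ) / (2 * √(n : ℝ) + 7)) Filter.atTop
      (nhds (1 / 2 - 0)) := h3.const_sub _
  rw [sub_zero] at h4
  refine h4.congr fun n => ?_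
  have : (0 : ℝ) < 2 * √(n : ℝ) + 7 := by positivity
  field_simp
  ring

/-- For every `n` there is a continuum in `[a,b]²` that no curve `(P(t), Q(t))` with
`deg P ≤ n` (and `Q` any polynomial) approximates better than `(b-a)/(2√n+7)`; hence
`c₁ ≥ 1/2`. -/
theorem result :
    (∀ a b : ℝ, a < b → ∀ n : ℕ, ∃ F ∈ ZD a b, ∀ P Q : ℝ[X], P.natDegree ≤ n →
      ENNReal.ofReal ((b - a) / (2 * √(n : ℝ) + 7)) ≤ Metric.hausdorffEDist F (curve P Q)) ∧
    (∀ a b : ℝ, a < b → ENNReal.ofReal (1 / 2) ≤ c1 a b) := by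
  refine ⟨fun a b hab n => exists_bad hab n, fun a b hab => ?_⟩
  have hlim : Filter.Tendsto (fun n : ℕ => ENNReal.ofReal (√(n : ℝ) / (2 * √(n : ℝ) + 7)))
      Filter.atTop (nhds (ENNReal.ofReal (1 / 2))) :=
    ENNReal.tendsto_ofReal tendsto_aux
  rw [← hlim.limsup_eq]
  unfold c1
  refine Filter.limsup_le_limsup (Filter.Eventually.of_forall fun n => ?_)
  obtain ⟨F, hF, hb⟩ := exists_bad hab n
  have h1 : ENNReal.ofReal ((b - a) / (2 * √(n : ℝ) + 7)) ≤ EZ a b n := by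
    refine le_trans ?_ (le_iSup₂ (f := fun F (_ : F ∈ ZD a b) => EF n F) F hF)
    unfold EF
    exact le_iInf fun P => le_iInf fun Q => le_iInf fun hP => le_iInf fun _ => hb P Q hP
  have h2 : √(n : ℝ) / (2 * √(n : ℝ) + 7) =
      √(n : ℝ) / (b - a) * ((b - a) / (2 * √(n : ℝ) + 7)) := by
    have : (0 : ℝ) < b - a := by linarith
    field_simp
  change ENNReal.ofReal (√(n : ℝ) / (2 * √(n : ℝ) + 7)) ≤
    ENNReal.ofReal (√(n : ℝ) / (b - a)) * EZ a b n
  rw [h2, ENNReal.ofReal_mul (div_nonneg (Real.sqrt_nonneg _) (by linarith))]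
  gcongr

end Pool.Agent.Results.MP_7e59b3_an.CombLowerBound
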